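import Pool.Agent.H64.EV.Targets

/-!
# Row TN2 of `evn_modules` (MP_fd35e1_ag): the component is numerically trivial
-/

set_option autoImplicit false
set_option linter.unusedSectionVars false

open Matrix Pool.Agent.H64.CC Pool.Agent.H2.NL Pool.Agent.H64.EV

namespace Pool.Agent.H63.EV

section

variable {K : Type} [Field K] {I : Type} [Fintype I] [DecidableEq I] (F : OForm K I)

private theorem tn2_Pr_congr (n : ℕ) : ∀ f f' g g' : List I → K,
    (∀ w : List I, w.length = n → f w = f' w) →
    (∀ w : List I, w.length = n → f w ≠ 0 → g (w.map F.st) = g' (w.map F.st)) →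
    F.Pr n f g = F.Pr n f' g' := by
  induction n with
  | zero =>
    intro f f' g g' hf hg
    show f [] * g [] = f' [] * g' []
    have h1 := hf [] rfl
    by_cases h0 : f [] = 0
    · rw [← h1, h0, zero_mul, zero_mul]
    · have h2 := hg [] rfl h0
      rw [List.map_nil] at h2
      rw [h1, h2]
  | succ n ih =>
    intro f f' g g' hf hg
    show ∑ a, F.c a * F.Pr n (fun l => f (a :: l)) (fun l => g (F.st a :: l)) =
      ∑ a, F.c a * F.Pr n (fun l => f' (a :: l)) (fun l => g' (F.st a :: l))
    refine Finset.sum_congr rfl fun a _ => ?_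
    rw [ih _ (fun l => f' (a :: l)) _ (fun l => g' (F.st a :: l))
      (fun w hw => hf (a :: w) (by rw [List.length_cons, hw]))
      (fun w hw h0 => hg (a :: w) (by rw [List.length_cons, hw]) h0)]

private theorem tn2_Pr_zero (n : ℕ) : ∀ f g : List I → K,
    (∀ w : List I, w.length = n → f w = 0) → F.Pr n f g = 0 := by
  induction n with
  | zero =>
    intro f g hf
    show f [] * g [] = 0
    rw [hf [] rfl, zero_mul]
  | succ n ih =>
    intro f g hf
    show ∑ a, F.c a * F.Pr n (fun l => f (a :: l)) (fun l => g (F.st a :: l)) = 0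
    refine Finset.sum_eq_zero fun a _ => ?_
    rw [ih _ _ (fun w hw => hf (a :: w) (by rw [List.length_cons, hw])), mul_zero]

private theorem tn2_odds_st (w : List I) : odds F.o (w.map F.st) = odds F.o w := by
  induction w with
  | nil => rfl
  | cons a w ih =>
    unfold odds at ih ⊢
    rw [List.map_cons, List.filter_cons, List.filter_cons, F.o_st]
    split_ifs
    · rw [List.length_cons, List.length_cons, ih]
    · exact ih

/-- the word `false ^ l true ^ l` -/
private def tn2_s (l : ℕ) : List Bool := List.replicate l false ++ List.replicate l true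

private theorem tn2_s_len (l : ℕ) : (tn2_s l).length = 2 * l := by
  unfold tn2_s
  rw [List.length_append, List.length_replicate, List.length_replicate]
  omega

/-- the lift of a tensor -/
private def tn2_y (l : ℕ) (y : List I → K) (W : List (I × Bool)) : K :=
  if W.map Prod.snd = tn2_s l then F.lw 0 W * y (W.map Prod.fst) else 0

private theorem tn2_cmp_eq (l : ℕ) (y : List I → K) (w : List I) (hw : w.length = 2 * l) :
    F.cmp (tn2_y F l y) (tn2_s l) w = y w := by
  have h1 : (w.zip (tn2_s l)).map Prod.snd = tn2_s l :=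
    List.map_snd_zip (by rw [tn2_s_len, hw])
  have h2 : (w.zip (tn2_s l)).map Prod.fst = w :=
    List.map_fst_zip (by rw [tn2_s_len, hw])
  unfold OForm.cmp tn2_y
  rw [if_pos h1, h2, ← mul_assoc, inv_mul_cancel₀ (F.lw_ne _ _), one_mul]

private theorem tn2_cmp_ne (l : ℕ) (y : List I → K) (σ : List Bool) (hσ : σ.length = 2 * l)
    (hne : σ ≠ tn2_s l) (w : List I) (hw : w.length = 2 * l) :
    F.cmp (tn2_y F l y) σ w = 0 := by
  have h1 : (w.zip σ).map Prod.snd = σ := List.map_snd_zip (by rw [hσ, hw])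
  unfold OForm.cmp tn2_y
  rw [h1, if_neg hne, mul_zero]

private theorem tn2_even [CharZero K] {A : ℕ → Submodule ℚ (List I → K)}
    (hC : Calc F.o F.η F.ω A) (l : ℕ) (y : List I → K) (hy : y ∈ A l) (W : List (I × Bool))
    (hW : W.length = 2 * l) (h0 : tn2_y F l y W ≠ 0) : Even (odds F.o (W.map Prod.fst)) := by
  unfold tn2_y at h0
  split_ifs at h0 with h1
  · exact hC.even l y _ hy (by rw [List.length_map, hW]) (right_ne_zero_of_mul h0)
  · exact absurd rfl h0

private theorem tn2_mem [CharZero K] {A : ℕ → Submodule ℚ (List I → K)}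
    (hC : Calc F.o F.η F.ω A) (l : ℕ) (y : List I → K) (hy : y ∈ A l) :
    tn2_y F l y ∈ F.TA A l := by
  intro σ hσ
  by_cases h : σ = tn2_s l
  · rw [h]
    exact hC.congr l y _ hy fun w hw => tn2_cmp_eq F l y w hw
  · exact hC.congr l 0 _ (A l).zero_mem fun w hw => tn2_cmp_ne F l y σ hσ h w hw

private theorem tn2_sws_mem [CharZero K] {o : I → Bool} {η ω : Matrix I I K}
    {A : ℕ → Submodule ℚ (List I → K)}
    (hC : Calc o η ω A) (l : ℕ) (t : List I → K) (ht : t ∈ A l) (js : List ℕ)
    (hjs : ∀ j ∈ js, j + 2 ≤ 2 * l) : sws o js t ∈ A l := by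
  induction js with
  | nil => exact ht
  | cons j js ih =>
    show sw o j (sws o js t) ∈ A l
    exact hC.sw l j _ (ih fun i hi => hjs i (List.mem_cons_of_mem _ hi))
      (hjs j List.mem_cons_self)

private theorem tn2_sum_mem [CharZero K] {o : I → Bool} {η ω : Matrix I I K}
    {A : ℕ → Submodule ℚ (List I → K)}
    (hC : Calc o η ω A) (l : ℕ) (t : List I → K) (ht : t ∈ A l) (L : List (List ℕ))
    (hL : ∀ js ∈ L, ∀ j ∈ js, j + 2 ≤ 2 * l) :
    (fun w => (L.map fun js => sws o js t w).sum) ∈ A l := by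
  induction L with
  | nil => exact (A l).zero_mem
  | cons js L ih =>
    have e : (fun w => ((js :: L).map fun js => sws o js t w).sum) =
        sws o js t + fun w => (L.map fun js => sws o js t w).sum := by
      funext w
      simp
    rw [e]
    exact (A l).add_mem (tn2_sws_mem hC l t ht js (hL js List.mem_cons_self))
      (ih fun i hi => hL i (List.mem_cons_of_mem _ hi))

end

theorem pf_TN2 (hTPR : T_TPR) (hTS1 : T_TS1) (hTC1 : T_TC1) (hZTR : T_ZTR) (hOTP : T_OTP)
    (hTCA : T_TCA) (_hIDS : T_IDS) : T_TN2 := by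
  intro K _ _ I _ _ F A hC hE l L hl hsd hnil hbd hsym y hy
  rw [hOTP K I F l y (F.Zc L l)]
  -- the symmetrization of the identity
  set Z : List (I × Bool) → K := fun w => (L.map fun js => sws F.tl.o js (idt F.tl.ω l) w).sum
    with hZ
  have hZs : Symm F.tl.o (2 * l) Z := hsym _
  have hZc : F.Zc L l = F.cmp Z (tn2_s l) := rfl
  have hCT := hTCA K I F A hC
  have hyT := tn2_mem F hC l y hy
  obtain ⟨hZ1, hZ2⟩ := hZTR K (I × Bool) F.tl l L hbd
  have hXA := tn2_sum_mem hCT l _ hyT L hbd
  have hlen : (L.length : K) ≠ 0 := by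
    have : 0 < L.length := List.length_pos_of_mem hnil
    exact_mod_cast this.ne'
  have h1 := hZ1 _ (hsym (tn2_y F l y))
  have h2 := hZ2 (tn2_y F l y) _ hZs
  rw [hTPR K I F A hC hE l _ hl hsd hXA (hsym _), mul_zero] at h1
  have h3 : Pr F.tl (2 * l) (tn2_y F l y) (rv Z) = 0 := by
    rw [← hZ] at h1
    rw [h1] at h2
    exact (mul_eq_zero.1 h2.symm).resolve_left hlen
  -- the pairing in terms of the components
  have h4 := hTS1 K I F (2 * l) (tn2_y F l y) (rv Z) fun W hW h0 => tn2_even F hC l y hy W hW h0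
  rw [h3] at h4
  have h9 : (-1 : K) ^ (List.count true (tn2_s l)) *
      F.Pr (2 * l) (F.cmp (tn2_y F l y) (tn2_s l)) (F.cmp (rv Z) ((tn2_s l).map not)) = 0 := by
    refine Eq.symm (h4.trans (Finset.sum_eq_single
      (⟨tn2_s l, tn2_s_len l⟩ : List.Vector Bool (2 * l)) ?_ ?_))
    · intro σ _ hσ
      rw [tn2_Pr_zero F (2 * l) _ _ fun w hw => tn2_cmp_ne F l y σ.1 σ.2
        (fun h => hσ (Subtype.ext h)) w hw, mul_zero]
    · intro h
      exact absurd (Finset.mem_univ (α := List.Vector Bool (2 * l)) _) h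
  have h5 : F.Pr (2 * l) (F.cmp (tn2_y F l y) (tn2_s l)) (F.cmp (rv Z) ((tn2_s l).map not)) =
      F.Pr (2 * l) y (rv (F.Zc L l)) := by
    refine tn2_Pr_congr F (2 * l) _ _ _ _ (fun w hw => tn2_cmp_eq F l y w hw) ?_
    intro w hw h0
    rw [tn2_cmp_eq F l y w hw] at h0
    have hev : Even (odds F.o (w.map F.st)) := by
      rw [tn2_odds_st]
      exact hC.even l y w hy hw h0
    have h6 := (hTC1 K I F).2.2 l Z ((tn2_s l).map not) (w.map F.st)
      (by rw [List.length_map, hw]) (by rw [List.length_map, tn2_s_len]) hev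
    have h7 : ((tn2_s l).map not).reverse = tn2_s l := by
      unfold tn2_s
      rw [List.map_append, List.map_replicate, List.map_replicate, List.reverse_append,
        List.reverse_replicate, List.reverse_replicate]
      rfl
    rw [h6, h7, hZc]
  have h8 : (-1 : K) ^ (List.count true (tn2_s l)) ≠ 0 :=
    pow_ne_zero _ (neg_ne_zero.2 one_ne_zero)
  rw [← h5]
  exact (mul_eq_zero.1 h9).resolve_left h8

end Pool.Agent.H63.EV
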